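import Pool.Agent.Q174.Bes.Kernel

/-!
Consequences of the two inequalities for zeros, and the power series of `G` at `ν = -1/2`.
-/

set_option autoImplicit false

namespace Pool.Agent.Q174.Bes

open Complex Filter Topology
open scoped ComplexConjugate Nat

theorem ne_conj_sq_iff (z : ℂ) : z ^ 2 ≠ conj (z ^ 2) ↔ z.re ≠ 0 ∧ z.im ≠ 0 := by
  rw [ne_comm, Ne, conj_eq_iff_im]
  have : (z ^ 2).im = 2 * (z.re * z.im) := by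
    rw [pow_two, mul_im]; ring
  rw [this]
  simp

theorem cos_ne_zero_of_im {z : ℂ} (h : z.im ≠ 0) : cos z ≠ 0 := by
  intro hc
  obtain ⟨k, hk⟩ := Complex.cos_eq_zero_iff.mp hc
  apply h
  rw [hk]
  have : ((2 * (k : ℂ) + 1) * (Real.pi : ℂ) / 2) = (((2 * k + 1) * Real.pi / 2 : ℝ) : ℂ) := by
    push_cast; ring
  rw [this, ofReal_im]

theorem sin_ne_zero_of_im {z : ℂ} (h : z.im ≠ 0) : sin z ≠ 0 := by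
  intro hc
  obtain ⟨k, hk⟩ := Complex.sin_eq_zero_iff.mp hc
  apply h
  rw [hk]
  have : ((k : ℂ) * (Real.pi : ℂ)) = ((k * Real.pi : ℝ) : ℂ) := by
    push_cast; ring
  rw [this, ofReal_im]

theorem zsin_ne_zero_of_im {z : ℂ} (h : z.im ≠ 0) : z * sin z ≠ 0 := by
  apply mul_ne_zero _ (sin_ne_zero_of_im h)
  rintro rfl
  simp at h

/-- The form of the two inequalities. -/
def Ineq (G : ℂ → ℂ) : Prop :=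
  ∃ (C : ℝ) (κ : ℂ → ℂ) (B : ℂ → ℂ → ℝ), 0 < C ∧ Continuous κ ∧ (∀ ζ, Continuous fun z => B z ζ) ∧
    (∀ z : ℂ, z.im ≠ 0 → κ z ≠ 0) ∧
    ∀ z ζ : ℂ, z ^ 2 ≠ conj (z ^ 2) → ζ ^ 2 ≠ conj (ζ ^ 2) → z ^ 2 ≠ conj (ζ ^ 2) → G ζ = 0 →
      C * ‖z ^ 2 - ζ ^ 2‖ * (‖z ^ 2 - conj (z ^ 2)‖ * ‖z ^ 2 - conj (ζ ^ 2)‖ * ‖κ z‖) ≤
        ‖G z‖ * B z ζ

theorem Ineq.unique {G : ℂ → ℂ} (hG : Ineq G) {z ζ : ℂ} (hz : z ^ 2 ≠ conj (z ^ 2))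
    (hζ : ζ ^ 2 ≠ conj (ζ ^ 2)) (h1 : G z = 0) (h2 : G ζ = 0) :
    z ^ 2 = ζ ^ 2 ∨ z ^ 2 = conj (ζ ^ 2) := by
  obtain ⟨C, κ, B, hC, _, _, hκ, h⟩ := hG
  by_cases h3 : z ^ 2 = conj (ζ ^ 2)
  · exact Or.inr h3
  left
  have := h z ζ hz hζ h3 h2
  rw [h1, norm_zero, zero_mul] at this
  have p1 : 0 < ‖z ^ 2 - conj (z ^ 2)‖ := norm_pos_iff.mpr (sub_ne_zero.mpr hz)
  have p2 : 0 < ‖z ^ 2 - conj (ζ ^ 2)‖ := norm_pos_iff.mpr (sub_ne_zero.mpr h3)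
  have p3 : 0 < ‖κ z‖ := norm_pos_iff.mpr (hκ z ((ne_conj_sq_iff z).mp hz).2)
  by_contra hne
  have p4 : 0 < ‖z ^ 2 - ζ ^ 2‖ := norm_pos_iff.mpr (sub_ne_zero.mpr hne)
  have : 0 < C * ‖z ^ 2 - ζ ^ 2‖ * (‖z ^ 2 - conj (z ^ 2)‖ * ‖z ^ 2 - conj (ζ ^ 2)‖ * ‖κ z‖) := by
    positivity
  linarith

theorem Ineq.simple {G : ℂ → ℂ} (hG : Ineq G) {ζ d : ℂ} (hζ : ζ ^ 2 ≠ conj (ζ ^ 2)) (h0 : G ζ = 0)
    (hd : HasDerivAt G d ζ) : d ≠ 0 := by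
  obtain ⟨C, κ, B, hC, hκc, hB, hκ, h⟩ := hG
  rintro rfl
  have hsl := hd.tendsto_slope
  have hc : Continuous fun z : ℂ => conj (z ^ 2) := Complex.continuous_conj.comp (continuous_pow 2)
  -- the left side divided by ‖z - ζ‖
  have e1 : ∀ᶠ z in 𝓝[≠] ζ, C * ‖z + ζ‖ * (‖z ^ 2 - conj (z ^ 2)‖ * ‖z ^ 2 - conj (ζ ^ 2)‖ * ‖κ z‖) ≤
      ‖slope G ζ z‖ * B z ζ := by
    have n1 : ∀ᶠ z in 𝓝 ζ, z ^ 2 ≠ conj (z ^ 2) :=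
      (isOpen_ne_fun (continuous_pow 2) hc).mem_nhds hζ
    have n2 : ∀ᶠ z in 𝓝 ζ, z ^ 2 ≠ conj (ζ ^ 2) :=
      (isOpen_ne_fun (continuous_pow 2) continuous_const).mem_nhds hζ
    filter_upwards [n1.filter_mono nhdsWithin_le_nhds, n2.filter_mono nhdsWithin_le_nhds,
      self_mem_nhdsWithin] with z z1 z2 z3
    have hne : z - ζ ≠ 0 := sub_ne_zero.mpr z3
    have hp : 0 < ‖z - ζ‖ := norm_pos_iff.mpr hne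
    have := h z ζ z1 hζ z2 h0
    have s1 : ‖z ^ 2 - ζ ^ 2‖ = ‖z - ζ‖ * ‖z + ζ‖ := by
      rw [← norm_mul]; congr 1; ring
    have s2 : ‖slope G ζ z‖ = ‖G z‖ / ‖z - ζ‖ := by
      rw [slope_def_field, h0, sub_zero, norm_div]
    rw [s1] at this
    rw [s2]
    rw [div_mul_eq_mul_div, le_div_iff₀ hp]
    linarith
  have t1 : Tendsto (fun z => C * ‖z + ζ‖ * (‖z ^ 2 - conj (z ^ 2)‖ * ‖z ^ 2 - conj (ζ ^ 2)‖ * ‖κ z‖))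
      (𝓝[≠] ζ) (𝓝 (C * ‖ζ + ζ‖ * (‖ζ ^ 2 - conj (ζ ^ 2)‖ * ‖ζ ^ 2 - conj (ζ ^ 2)‖ * ‖κ ζ‖))) := by
    have : Continuous (fun z => C * ‖z + ζ‖ *
        (‖z ^ 2 - conj (z ^ 2)‖ * ‖z ^ 2 - conj (ζ ^ 2)‖ * ‖κ z‖)) := by
      fun_prop
    exact (this.tendsto ζ).mono_left nhdsWithin_le_nhds
  have t2 : Tendsto (fun z => ‖slope G ζ z‖ * B z ζ) (𝓝[≠] ζ) (𝓝 (‖(0:ℂ)‖ * B ζ ζ)) :=
    hsl.norm.mul (((hB ζ).tendsto ζ).mono_left nhdsWithin_le_nhds)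
  have hle := le_of_tendsto_of_tendsto t1 t2 e1
  rw [norm_zero, zero_mul] at hle
  have q := (ne_conj_sq_iff ζ).mp hζ
  have p1 : 0 < ‖ζ ^ 2 - conj (ζ ^ 2)‖ := norm_pos_iff.mpr (sub_ne_zero.mpr hζ)
  have p3 : 0 < ‖κ ζ‖ := norm_pos_iff.mpr (hκ ζ q.2)
  have p4 : 0 < ‖ζ + ζ‖ := by
    apply norm_pos_iff.mpr
    rw [← two_mul]
    apply mul_ne_zero two_ne_zero
    rintro rfl
    exact q.1 rfl
  have : 0 < C * ‖ζ + ζ‖ * (‖ζ ^ 2 - conj (ζ ^ 2)‖ * ‖ζ ^ 2 - conj (ζ ^ 2)‖ * ‖κ ζ‖) := by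
    positivity
  linarith

/-- The zeros off both axes have total multiplicity at most `4`. -/
theorem Ineq.count {G : ℂ → ℂ} (hG : Ineq G) (ha : Differentiable ℂ G) (S : Finset ℂ)
    (hS : ∀ z ∈ S, z.re ≠ 0 ∧ z.im ≠ 0 ∧ G z = 0) : ∑ z ∈ S, analyticOrderNatAt G z ≤ 4 := by
  rcases S.eq_empty_or_nonempty with rfl | ⟨ζ, hζ⟩
  · simp
  have h1 : ∀ z ∈ S, analyticOrderNatAt G z = 1 := by
    intro z hz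
    obtain ⟨z1, z2, z3⟩ := hS z hz
    have han : AnalyticAt ℂ G z := ha.analyticAt z
    have := han.analyticOrderAt_eq_one_of_zero_deriv_ne_zero z3
      (hG.simple ((ne_conj_sq_iff z).mpr ⟨z1, z2⟩) z3 (ha z).hasDerivAt)
    rw [analyticOrderNatAt, this]
    rfl
  rw [Finset.sum_congr rfl h1]
  simp only [Finset.sum_const, smul_eq_mul, mul_one]
  have hsub : S ⊆ {ζ, -ζ, conj ζ, -conj ζ} := by
    intro z hz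
    obtain ⟨z1, z2, z3⟩ := hS z hz
    obtain ⟨y1, y2, y3⟩ := hS ζ hζ
    rcases hG.unique ((ne_conj_sq_iff z).mpr ⟨z1, z2⟩) ((ne_conj_sq_iff ζ).mpr ⟨y1, y2⟩) z3 y3 with h | h
    · rcases sq_eq_sq_iff_eq_or_eq_neg.mp h with h | h <;> simp [h]
    · rw [map_pow] at h
      rcases sq_eq_sq_iff_eq_or_eq_neg.mp h with h | h <;> simp [h]
  exact (Finset.card_le_card hsub).trans (Finset.card_le_four)

theorem Ineq.const_mul {G : ℂ → ℂ} (hG : Ineq G) {c : ℂ} (hc : c ≠ 0) : Ineq (fun z => c * G z) := by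
  obtain ⟨C, κ, B, hC, hκc, hB, hκ, h⟩ := hG
  have hc' : 0 < ‖c‖ := norm_pos_iff.mpr hc
  refine ⟨‖c‖ * C, κ, B, mul_pos hc' hC, hκc, hB, hκ, ?_⟩
  intro z ζ h1 h2 h3 h4
  have h5 : G ζ = 0 := (mul_eq_zero.mp h4).resolve_left hc
  have := mul_le_mul_of_nonneg_left (h z ζ h1 h2 h3 h5) hc'.le
  rw [norm_mul]
  calc ‖c‖ * C * ‖z ^ 2 - ζ ^ 2‖ * (‖z ^ 2 - conj (z ^ 2)‖ * ‖z ^ 2 - conj (ζ ^ 2)‖ * ‖κ z‖)
      = ‖c‖ * (C * ‖z ^ 2 - ζ ^ 2‖ *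
        (‖z ^ 2 - conj (z ^ 2)‖ * ‖z ^ 2 - conj (ζ ^ 2)‖ * ‖κ z‖)) := by ring
    _ ≤ ‖c‖ * (‖G z‖ * B z ζ) := this
    _ = ‖c‖ * ‖G z‖ * B z ζ := by ring

theorem ineq4' : Ineq (fun z => ((z ^ 2) ^ 2 - 9 / 2 * z ^ 2 + 105 / 16) * cos z
    + (15 / 2 - 2 * z ^ 2) * (z * sin z)) := by
  refine ⟨15 / 8, cos, fun z ζ => ‖z ^ 2 - 15 / 4‖ * ‖ζ ^ 2 - 15 / 4‖ ^ 2, by norm_num, continuous_cos,
    fun ζ => by fun_prop, fun z hz => cos_ne_zero_of_im hz, ?_⟩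
  intro z ζ h1 h2 h3 h4
  exact ineq4 z ζ (cos_ne_zero_of_im ((ne_conj_sq_iff z).mp h1).2)
    (cos_ne_zero_of_im ((ne_conj_sq_iff ζ).mp h2).2) h1 h2 h3 h4

theorem ineq5' : Ineq (fun z => (-5 / 2 * (z ^ 2) ^ 2 + 75 / 4 * z ^ 2 - 945 / 32) * cos z +
        (-(z ^ 2) ^ 2 + 15 / 2 * z ^ 2 - 525 / 16) * (z * sin z)) := by
  refine ⟨63 / 2, fun z => z * sin z,
    fun z ζ => ‖z ^ 2 - 9 / 4‖ * ‖z ^ 2 - 21 / 4‖ * ‖ζ ^ 2 - 21 / 4‖ ^ 2, by norm_num,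
    continuous_id.mul continuous_sin,
    fun ζ => by fun_prop, fun z hz => zsin_ne_zero_of_im hz, ?_⟩
  intro z ζ h1 h2 h3 h4
  exact ineq5 z ζ (zsin_ne_zero_of_im ((ne_conj_sq_iff z).mp h1).2)
    (zsin_ne_zero_of_im ((ne_conj_sq_iff ζ).mp h2).2) h1 h2 h3 h4

end Pool.Agent.Q174.Bes
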