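import Mathlib

/-!
Positivity of the kernel `(z sin z cos v - v cos z sin v) / (z^2 - v^2)` and its consequences for the
zeros of functions `a(z^2) cos z + b(z^2) z sin z`.
-/

set_option autoImplicit false

namespace Pool.Agent.Q174.Bes

open Complex MeasureTheory intervalIntegral
open scoped ComplexConjugate

/-- The kernel `K(z,v) = int_0^1 cos(zs) cos(vs) ds`. -/
noncomputable def K (z v : ℂ) : ℂ := ∫ s in (0:ℝ)..1, cos (z * s) * cos (v * s)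

theorem K_formula (z v : ℂ) :
    (z ^ 2 - v ^ 2) * K z v = z * sin z * cos v - v * cos z * sin v := by
  have hd : ∀ s ∈ Set.uIcc (0:ℝ) 1, HasDerivAt
      (fun s : ℝ => z * sin (z * s) * cos (v * s) - v * cos (z * s) * sin (v * s))
      ((z ^ 2 - v ^ 2) * (cos (z * s) * cos (v * s))) s := by
    intro s _
    have h1 : HasDerivAt (fun t : ℂ => z * t) z (s : ℂ) := by
      simpa using (hasDerivAt_id (s : ℂ)).const_mul z
    have h2 : HasDerivAt (fun t : ℂ => v * t) v (s : ℂ) := by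
      simpa using (hasDerivAt_id (s : ℂ)).const_mul v
    have h0 : HasDerivAt
        (fun t : ℂ => z * sin (z * t) * cos (v * t) - v * cos (z * t) * sin (v * t))
        ((z ^ 2 - v ^ 2) * (cos (z * s) * cos (v * s))) (s : ℂ) := by
      have h := ((h1.csin.const_mul z).mul h2.ccos).sub ((h1.ccos.const_mul v).mul h2.csin)
      refine HasDerivAt.congr_deriv h ?_
      ring
    exact h0.comp_ofReal
  have hi : IntervalIntegrable (fun s : ℝ => (z ^ 2 - v ^ 2) * (cos (z * s) * cos (v * s)))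
      volume 0 1 := by
    apply Continuous.intervalIntegrable
    fun_prop
  have := integral_eq_sub_of_hasDerivAt hd hi
  rw [intervalIntegral.integral_const_mul] at this
  unfold K
  rw [this]
  simp

/-- The Gram matrix of the functions `cos(zs)` and `cos(ζs)` is positive semidefinite. -/
theorem gram (z ζ A B : ℂ) : ∃ R : ℝ, 0 ≤ R ∧ (R : ℂ) =
    A * conj A * K z (conj z) + A * conj B * K z (conj ζ) + B * conj A * K ζ (conj z)
      + B * conj B * K ζ (conj ζ) := by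
  refine ⟨∫ s in (0:ℝ)..1, normSq (A * cos (z * s) + B * cos (ζ * s)), ?_, ?_⟩
  · apply intervalIntegral.integral_nonneg (by norm_num)
    intro s _
    exact normSq_nonneg _
  · have hc : ∀ s : ℝ, ((normSq (A * cos (z * s) + B * cos (ζ * s)) : ℝ) : ℂ) =
        (A * conj A) * (cos (z * s) * cos (conj z * s))
        + (A * conj B) * (cos (z * s) * cos (conj ζ * s))
        + (B * conj A) * (cos (ζ * s) * cos (conj z * s))
        + (B * conj B) * (cos (ζ * s) * cos (conj ζ * s)) := by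
      intro s
      rw [← mul_conj]
      have e1 : conj (cos (z * s)) = cos (conj z * s) := by
        rw [← cos_conj]; simp
      have e2 : conj (cos (ζ * s)) = cos (conj ζ * s) := by
        rw [← cos_conj]; simp
      simp only [map_add, map_mul]
      rw [e1, e2]
      ring
    have hint : ∀ (a b C : ℂ), IntervalIntegrable (fun s : ℝ => C * (cos (a * s) * cos (b * s)))
        volume 0 1 := by
      intro a b C
      apply Continuous.intervalIntegrable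
      fun_prop
    rw [← intervalIntegral.integral_ofReal]
    simp_rw [hc]
    rw [intervalIntegral.integral_add (((hint _ _ _).add (hint _ _ _)).add (hint _ _ _)) (hint _ _ _),
      intervalIntegral.integral_add ((hint _ _ _).add (hint _ _ _)) (hint _ _ _),
      intervalIntegral.integral_add (hint _ _ _) (hint _ _ _)]
    simp only [intervalIntegral.integral_const_mul]
    rfl

theorem K_eq (z v : ℂ) (h : z ^ 2 ≠ v ^ 2) :
    K z v = (z * sin z * cos v - v * cos z * sin v) / (z ^ 2 - v ^ 2) := by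
  rw [← K_formula z v, mul_div_cancel_left₀]
  exact sub_ne_zero.mpr h

theorem key {R D : ℝ} (hR : 0 ≤ R) {N X : ℂ} (h : (R : ℂ) = N * X + conj (N * X) - (D : ℂ)) :
    D ≤ 2 * (‖N‖ * ‖X‖) := by
  have h1 := congrArg re h
  simp only [ofReal_re, sub_re, add_re, conj_re] at h1
  have h2 : (N * X).re ≤ ‖N‖ * ‖X‖ := by
    rw [← norm_mul]
    exact re_le_norm _
  linarith

theorem pair {w v T T' N N' α β γ p : ℂ} (h : w - v ≠ 0) (h1 : w - p ≠ 0) (h2 : v - p ≠ 0)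
    (hT : T = α * w + β + γ / (w - p) + N) (hT' : T' = α * v + β + γ / (v - p) + N') :
    (T - T') / (w - v) = (N - N') / (w - v) + α - γ * ((w - p)⁻¹ * (v - p)⁻¹) := by
  subst hT hT'
  field_simp
  ring

theorem pairM {w v T T' N N' β γ p q : ℂ} (h : w - v ≠ 0) (h1 : w - p ≠ 0) (h2 : v - p ≠ 0)
    (h3 : w - q ≠ 0) (h4 : v - q ≠ 0)
    (hT : T = β - γ / (w - p) + γ / (w - q) + N) (hT' : T' = β - γ / (v - p) + γ / (v - q) + N') :
    (w - p) * (v - p) * ((T - T') / (w - v)) = (w - p) * (v - p) * ((N - N') / (w - v)) + γ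
      - γ * (((w - p) / (w - q)) * ((v - p) / (v - q))) := by
  subst hT hT'
  field_simp
  ring

/-- `T = z tan z`. -/
noncomputable def T (z : ℂ) : ℂ := z * sin z / cos z

/-- `M = - cot z / z = - 1 / T`. -/
noncomputable def M (z : ℂ) : ℂ := -cos z / (z * sin z)

theorem K_T (z ζ : ℂ) (hz : cos z ≠ 0) (hζ : cos ζ ≠ 0) (h : z ^ 2 ≠ conj (ζ ^ 2)) :
    (cos z)⁻¹ * conj ((cos ζ)⁻¹) * K z (conj ζ) = (T z - conj (T ζ)) / (z ^ 2 - conj (ζ ^ 2)) := by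
  have h' : z ^ 2 ≠ (conj ζ) ^ 2 := by rwa [map_pow] at h
  have h1 : z ^ 2 - (conj ζ) ^ 2 ≠ 0 := sub_ne_zero.mpr h'
  have h2 : conj (cos ζ) ≠ 0 := by simpa using hζ
  rw [K_eq _ _ h', T, T]
  simp only [map_pow, map_inv₀, map_div₀, map_mul, cos_conj, sin_conj]
  field_simp

theorem K_M (z ζ : ℂ) (hz : z * sin z ≠ 0) (hζ : ζ * sin ζ ≠ 0) (h : z ^ 2 ≠ conj (ζ ^ 2)) :
    (z * sin z)⁻¹ * conj ((ζ * sin ζ)⁻¹) * K z (conj ζ) =
      (M z - conj (M ζ)) / (z ^ 2 - conj (ζ ^ 2)) := by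
  have h' : z ^ 2 ≠ (conj ζ) ^ 2 := by rwa [map_pow] at h
  have h1 : z ^ 2 - (conj ζ) ^ 2 ≠ 0 := sub_ne_zero.mpr h'
  have h2 : conj (ζ * sin ζ) ≠ 0 := by simpa using hζ
  obtain ⟨hz1, hz2⟩ := mul_ne_zero_iff.mp hz
  rw [map_mul] at h2
  obtain ⟨hζ1, hζ2⟩ := mul_ne_zero_iff.mp h2
  rw [K_eq _ _ h', M, M]
  simp only [map_pow, map_inv₀, map_div₀, map_mul, map_neg, cos_conj, sin_conj]
  field_simp
  ring

theorem aux4 (w S c x : ℂ) (hc : c ≠ 0) (hx : x ≠ 0) (hw : w = x + 15 / 4) :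
    S / c - (1 / 2 * w + -3 / 8 + 15 / 8 / x) =
      -((w ^ 2 - 9 / 2 * w + 105 / 16) * c + (15 / 2 - 2 * w) * S) / (2 * x * c) := by
  subst hw
  field_simp
  ring

theorem aux5 (w S c x y : ℂ) (hS : S ≠ 0) (hx : x ≠ 0) (hy : y ≠ 0) (hw : w = x + 9 / 4)
    (hy' : y = x - 3) :
    -c / S - (2 / 5 - 14 / 5 / x + 14 / 5 / y) =
      ((-5 / 2 * w ^ 2 + 75 / 4 * w - 945 / 32) * c + (-w ^ 2 + 15 / 2 * w - 525 / 16) * S) /
        (5 / 2 * x * y * S) := by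
  subst hw hy'
  field_simp
  ring

theorem sub_real_ne_zero {x : ℂ} (hx : x ≠ conj x) {p : ℂ} (hp : conj p = p) : x - p ≠ 0 := by
  intro h
  apply hx
  have : x = p := by linear_combination h
  rw [this, hp]

theorem norm_D (γ : ℝ) {N X Y : ℂ} {R : ℝ} (hR : 0 ≤ R)
    (h : (R : ℂ) = N * X + conj (N * X) - (γ : ℂ) * (Y * conj Y)) :
    γ * ‖Y‖ ^ 2 ≤ 2 * (‖N‖ * ‖X‖) := by
  apply key hR (D := γ * ‖Y‖ ^ 2)
  rw [h, mul_conj, normSq_eq_norm_sq]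
  push_cast
  ring

/-- First inequality: `G(z) = a cos z + b z sin z` with `b = -2 (w - 15/4)` and
`a = w^2 - (9/2) w + 105/16`, `w = z^2`. -/
theorem ineq4 (z ζ : ℂ) (hz : cos z ≠ 0) (hζ : cos ζ ≠ 0) (h1 : z ^ 2 ≠ conj (z ^ 2))
    (h2 : ζ ^ 2 ≠ conj (ζ ^ 2)) (h3 : z ^ 2 ≠ conj (ζ ^ 2))
    (hG : ((ζ ^ 2) ^ 2 - 9 / 2 * ζ ^ 2 + 105 / 16) * cos ζ + (15 / 2 - 2 * ζ ^ 2) * (ζ * sin ζ) = 0) :
    15 / 8 * ‖z ^ 2 - ζ ^ 2‖ * (‖z ^ 2 - conj (z ^ 2)‖ * ‖z ^ 2 - conj (ζ ^ 2)‖ * ‖cos z‖) ≤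
      ‖((z ^ 2) ^ 2 - 9 / 2 * z ^ 2 + 105 / 16) * cos z + (15 / 2 - 2 * z ^ 2) * (z * sin z)‖ *
        (‖z ^ 2 - 15 / 4‖ * ‖ζ ^ 2 - 15 / 4‖ ^ 2) := by
  have cp : conj (15 / 4 : ℂ) = 15 / 4 := by
    simp only [map_div₀, map_ofNat]
  obtain ⟨R, hR, hR'⟩ := gram z ζ ((cos z)⁻¹) (-(cos ζ)⁻¹)
  have h3' : ζ ^ 2 ≠ conj (z ^ 2) := by
    intro h; apply h3; rw [h, conj_conj]
  have e : (R : ℂ) = (T z - conj (T z)) / (z ^ 2 - conj (z ^ 2))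
      - (T z - conj (T ζ)) / (z ^ 2 - conj (ζ ^ 2)) - (T ζ - conj (T z)) / (ζ ^ 2 - conj (z ^ 2))
      + (T ζ - conj (T ζ)) / (ζ ^ 2 - conj (ζ ^ 2)) := by
    rw [← K_T z z hz hz h1, ← K_T z ζ hz hζ h3, ← K_T ζ z hζ hz h3', ← K_T ζ ζ hζ hζ h2, hR']
    simp only [map_neg]
    ring
  have e0 : T z - (1 / 2 * z ^ 2 + -3 / 8 + 15 / 8 / (z ^ 2 - 15 / 4)) =
      -(((z ^ 2) ^ 2 - 9 / 2 * z ^ 2 + 105 / 16) * cos z + (15 / 2 - 2 * z ^ 2) * (z * sin z)) /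
        (2 * (z ^ 2 - 15 / 4) * cos z) :=
    aux4 _ _ _ _ hz (sub_real_ne_zero h1 cp) (by ring)
  have t3 : T ζ = 1 / 2 * ζ ^ 2 + -3 / 8 + 15 / 8 / (ζ ^ 2 - 15 / 4) + 0 := by
    have := aux4 (ζ ^ 2) (ζ * sin ζ) (cos ζ) (ζ ^ 2 - 15 / 4) hζ (sub_real_ne_zero h2 cp) (by ring)
    rw [hG, neg_zero, zero_div, sub_eq_zero] at this
    rw [T, this, add_zero]
  set G := ((z ^ 2) ^ 2 - 9 / 2 * z ^ 2 + 105 / 16) * cos z + (15 / 2 - 2 * z ^ 2) * (z * sin z)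
  clear_value G
  have a1 : z ^ 2 - 15 / 4 ≠ 0 := sub_real_ne_zero h1 cp
  have a3 : ζ ^ 2 - 15 / 4 ≠ 0 := sub_real_ne_zero h2 cp
  generalize z ^ 2 = w at *
  generalize ζ ^ 2 = w0 at *
  have a2 : conj w - 15 / 4 ≠ 0 := sub_real_ne_zero (by rw [conj_conj]; exact h1.symm) cp
  have a4 : conj w0 - 15 / 4 ≠ 0 := sub_real_ne_zero (by rw [conj_conj]; exact h2.symm) cp
  set N : ℂ := T z - (1 / 2 * w + -3 / 8 + 15 / 8 / (w - 15 / 4)) with hN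
  have b1 : w - conj w ≠ 0 := sub_ne_zero.mpr h1
  have b2 : w - conj w0 ≠ 0 := sub_ne_zero.mpr h3
  have b3 : w0 - conj w ≠ 0 := sub_ne_zero.mpr h3'
  have b4 : w0 - conj w0 ≠ 0 := sub_ne_zero.mpr h2
  have t1 : T z = 1 / 2 * w + -3 / 8 + 15 / 8 / (w - 15 / 4) + N := by rw [hN]; ring
  have t2 : conj (T z) = 1 / 2 * conj w + -3 / 8 + 15 / 8 / (conj w - 15 / 4) + conj N := by
    rw [t1]
    simp only [map_add, map_mul, map_div₀, map_sub, map_neg, map_ofNat, map_one]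
  have t4 : conj (T ζ) = 1 / 2 * conj w0 + -3 / 8 + 15 / 8 / (conj w0 - 15 / 4) + 0 := by
    rw [t3]
    simp only [map_add, map_mul, map_div₀, map_sub, map_neg, map_ofNat, map_one, map_zero]
  rw [pair b1 a1 a2 t1 t2, pair b2 a1 a4 t1 t4, pair b3 a3 a2 t3 t2, pair b4 a3 a4 t3 t4] at e
  have key1 : (15 / 8 : ℝ) * ‖(w - 15 / 4)⁻¹ - (w0 - 15 / 4)⁻¹‖ ^ 2 ≤
      2 * (‖N‖ * ‖(w - conj w)⁻¹ - (w - conj w0)⁻¹‖) := by
    apply norm_D (15 / 8) hR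
    rw [e]
    simp only [map_mul, map_sub, map_inv₀, conj_conj, cp]
    have c1 : (conj w - w)⁻¹ = -(w - conj w)⁻¹ := by
      rw [← neg_sub, inv_neg]
    have c2 : (conj w - w0)⁻¹ = -(w0 - conj w)⁻¹ := by
      rw [← neg_sub, inv_neg]
    rw [c1, c2]
    push_cast
    simp only [div_eq_mul_inv]
    ring
  have n1 : ‖(w - 15 / 4)⁻¹ - (w0 - 15 / 4)⁻¹‖ = ‖w - w0‖ / (‖w - 15 / 4‖ * ‖w0 - 15 / 4‖) := by
    rw [← norm_mul, ← norm_div]
    rw [inv_sub_inv a1 a3]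
    rw [norm_div, norm_div, norm_sub_rev]
    congr 2
    ring
  have n2 : ‖(w - conj w)⁻¹ - (w - conj w0)⁻¹‖ = ‖w - w0‖ / (‖w - conj w‖ * ‖w - conj w0‖) := by
    rw [← norm_mul, inv_sub_inv b1 b2, norm_div]
    congr 1
    rw [← norm_conj (w - w0)]
    congr 1
    rw [map_sub]
    ring
  have n3 : ‖G‖ = 2 * ‖w - 15 / 4‖ * ‖cos z‖ * ‖N‖ := by
    have : G = -(2 * (w - 15 / 4) * cos z * N) := by
      have hX : 2 * (w - 15 / 4) * cos z ≠ 0 := mul_ne_zero (mul_ne_zero two_ne_zero a1) hz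
      rw [e0, ← mul_div_assoc, mul_div_cancel_left₀ _ hX, neg_neg]
    rw [this, norm_neg, norm_mul, norm_mul, norm_mul]
    norm_num
  rw [n1, n2] at key1
  rw [n3]
  have p1 : 0 < ‖w - 15 / 4‖ := norm_pos_iff.mpr a1
  have p2 : 0 < ‖w0 - 15 / 4‖ := norm_pos_iff.mpr a3
  have p3 : 0 < ‖w - conj w‖ := norm_pos_iff.mpr b1
  have p4 : 0 < ‖w - conj w0‖ := norm_pos_iff.mpr b2
  have p5 : 0 < ‖cos z‖ := norm_pos_iff.mpr hz
  have p6 : 0 ≤ ‖w - w0‖ := norm_nonneg _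
  have p7 : 0 ≤ ‖N‖ := norm_nonneg _
  generalize ‖w - 15 / 4‖ = a at *
  generalize ‖w0 - 15 / 4‖ = b at *
  generalize ‖w - conj w‖ = f at *
  generalize ‖w - conj w0‖ = g at *
  generalize ‖cos z‖ = k at *
  generalize ‖w - w0‖ = d at *
  generalize ‖N‖ = n at *
  rcases p6.eq_or_lt with hd | hd
  · rw [← hd]
    have : 0 ≤ 2 * a * k * n * (a * b ^ 2) := by positivity
    simpa using this
  · have q1 : 15 / 8 * d * (f * g) ≤ 2 * n * (a ^ 2 * b ^ 2) := by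
      have h5 : 15 / 8 * (d / (a * b)) ^ 2 * ((a * b) ^ 2 * (f * g) / d) ≤
          2 * (n * (d / (f * g))) * ((a * b) ^ 2 * (f * g) / d) :=
        mul_le_mul_of_nonneg_right key1 (by positivity)
      have e1 : 15 / 8 * (d / (a * b)) ^ 2 * ((a * b) ^ 2 * (f * g) / d) = 15 / 8 * d * (f * g) := by
        field_simp
      have e2 : 2 * (n * (d / (f * g))) * ((a * b) ^ 2 * (f * g) / d) = 2 * n * (a ^ 2 * b ^ 2) := by
        field_simp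
      rw [e1, e2] at h5
      exact h5
    calc 15 / 8 * d * (f * g * k) = (15 / 8 * d * (f * g)) * k := by ring
      _ ≤ (2 * n * (a ^ 2 * b ^ 2)) * k := mul_le_mul_of_nonneg_right q1 p5.le
      _ = 2 * a * k * n * (a * b ^ 2) := by ring

/-- Second inequality: `G(z) = a cos z + b z sin z` with `a = -(5/2) (w - 9/4) (w - 21/4)` and
`b = -w^2 + (15/2) w - 525/16`, `w = z^2`. -/
theorem ineq5 (z ζ : ℂ) (hz : z * sin z ≠ 0) (hζ : ζ * sin ζ ≠ 0) (h1 : z ^ 2 ≠ conj (z ^ 2))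
    (h2 : ζ ^ 2 ≠ conj (ζ ^ 2)) (h3 : z ^ 2 ≠ conj (ζ ^ 2))
    (hG : (-5 / 2 * (ζ ^ 2) ^ 2 + 75 / 4 * ζ ^ 2 - 945 / 32) * cos ζ +
      (-(ζ ^ 2) ^ 2 + 15 / 2 * ζ ^ 2 - 525 / 16) * (ζ * sin ζ) = 0) :
    63 / 2 * ‖z ^ 2 - ζ ^ 2‖ * (‖z ^ 2 - conj (z ^ 2)‖ * ‖z ^ 2 - conj (ζ ^ 2)‖ * ‖z * sin z‖) ≤
      ‖(-5 / 2 * (z ^ 2) ^ 2 + 75 / 4 * z ^ 2 - 945 / 32) * cos z +
        (-(z ^ 2) ^ 2 + 15 / 2 * z ^ 2 - 525 / 16) * (z * sin z)‖ *
        (‖z ^ 2 - 9 / 4‖ * ‖z ^ 2 - 21 / 4‖ * ‖ζ ^ 2 - 21 / 4‖ ^ 2) := by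
  have cp : conj (9 / 4 : ℂ) = 9 / 4 := by
    simp only [map_div₀, map_ofNat]
  have cq : conj (21 / 4 : ℂ) = 21 / 4 := by
    simp only [map_div₀, map_ofNat]
  obtain ⟨R, hR, hR'⟩ := gram z ζ ((z ^ 2 - 9 / 4) * (z * sin z)⁻¹) (-((ζ ^ 2 - 9 / 4) * (ζ * sin ζ)⁻¹))
  have h3' : ζ ^ 2 ≠ conj (z ^ 2) := by
    intro h; apply h3; rw [h, conj_conj]
  have e : (R : ℂ) =
      (z ^ 2 - 9 / 4) * (conj (z ^ 2) - 9 / 4) * ((M z - conj (M z)) / (z ^ 2 - conj (z ^ 2)))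
      - (z ^ 2 - 9 / 4) * (conj (ζ ^ 2) - 9 / 4) * ((M z - conj (M ζ)) / (z ^ 2 - conj (ζ ^ 2)))
      - (ζ ^ 2 - 9 / 4) * (conj (z ^ 2) - 9 / 4) * ((M ζ - conj (M z)) / (ζ ^ 2 - conj (z ^ 2)))
      + (ζ ^ 2 - 9 / 4) * (conj (ζ ^ 2) - 9 / 4) * ((M ζ - conj (M ζ)) / (ζ ^ 2 - conj (ζ ^ 2))) := by
    rw [← K_M z z hz hz h1, ← K_M z ζ hz hζ h3, ← K_M ζ z hζ hz h3', ← K_M ζ ζ hζ hζ h2, hR']
    simp only [map_neg, map_mul, map_sub, cp]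
    ring
  have a1 : z ^ 2 - 9 / 4 ≠ 0 := sub_real_ne_zero h1 cp
  have a3 : ζ ^ 2 - 9 / 4 ≠ 0 := sub_real_ne_zero h2 cp
  have d1 : z ^ 2 - 21 / 4 ≠ 0 := sub_real_ne_zero h1 cq
  have d3 : ζ ^ 2 - 21 / 4 ≠ 0 := sub_real_ne_zero h2 cq
  have e0 : M z - (2 / 5 - 14 / 5 / (z ^ 2 - 9 / 4) + 14 / 5 / (z ^ 2 - 21 / 4)) =
      ((-5 / 2 * (z ^ 2) ^ 2 + 75 / 4 * z ^ 2 - 945 / 32) * cos z +
        (-(z ^ 2) ^ 2 + 15 / 2 * z ^ 2 - 525 / 16) * (z * sin z)) /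
        (5 / 2 * (z ^ 2 - 9 / 4) * (z ^ 2 - 21 / 4) * (z * sin z)) :=
    aux5 _ _ _ _ _ hz a1 d1 (by ring) (by ring)
  have t3 : M ζ = 2 / 5 - 14 / 5 / (ζ ^ 2 - 9 / 4) + 14 / 5 / (ζ ^ 2 - 21 / 4) + 0 := by
    have := aux5 (ζ ^ 2) (ζ * sin ζ) (cos ζ) (ζ ^ 2 - 9 / 4) (ζ ^ 2 - 21 / 4) hζ a3 d3 (by ring) (by ring)
    rw [hG, zero_div, sub_eq_zero] at this
    rw [M, this, add_zero]
  set G := (-5 / 2 * (z ^ 2) ^ 2 + 75 / 4 * z ^ 2 - 945 / 32) * cos z +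
        (-(z ^ 2) ^ 2 + 15 / 2 * z ^ 2 - 525 / 16) * (z * sin z)
  clear_value G
  generalize z ^ 2 = w at *
  generalize ζ ^ 2 = w0 at *
  have a2 : conj w - 9 / 4 ≠ 0 := sub_real_ne_zero (by rw [conj_conj]; exact h1.symm) cp
  have a4 : conj w0 - 9 / 4 ≠ 0 := sub_real_ne_zero (by rw [conj_conj]; exact h2.symm) cp
  have d2 : conj w - 21 / 4 ≠ 0 := sub_real_ne_zero (by rw [conj_conj]; exact h1.symm) cq
  have d4 : conj w0 - 21 / 4 ≠ 0 := sub_real_ne_zero (by rw [conj_conj]; exact h2.symm) cq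
  set N : ℂ := M z - (2 / 5 - 14 / 5 / (w - 9 / 4) + 14 / 5 / (w - 21 / 4)) with hN
  have b1 : w - conj w ≠ 0 := sub_ne_zero.mpr h1
  have b2 : w - conj w0 ≠ 0 := sub_ne_zero.mpr h3
  have b3 : w0 - conj w ≠ 0 := sub_ne_zero.mpr h3'
  have b4 : w0 - conj w0 ≠ 0 := sub_ne_zero.mpr h2
  have t1 : M z = 2 / 5 - 14 / 5 / (w - 9 / 4) + 14 / 5 / (w - 21 / 4) + N := by rw [hN]; ring
  have t2 : conj (M z) =
      2 / 5 - 14 / 5 / (conj w - 9 / 4) + 14 / 5 / (conj w - 21 / 4) + conj N := by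
    rw [t1]
    simp only [map_add, map_div₀, map_sub, map_ofNat]
  have t4 : conj (M ζ) = 2 / 5 - 14 / 5 / (conj w0 - 9 / 4) + 14 / 5 / (conj w0 - 21 / 4) + 0 := by
    rw [t3]
    simp only [map_add, map_div₀, map_sub, map_ofNat, map_zero]
  rw [pairM b1 a1 a2 d1 d2 t1 t2, pairM b2 a1 a4 d1 d4 t1 t4, pairM b3 a3 a2 d3 d2 t3 t2,
    pairM b4 a3 a4 d3 d4 t3 t4] at e
  have key1 : (14 / 5 : ℝ) * ‖(w - 9 / 4) / (w - 21 / 4) - (w0 - 9 / 4) / (w0 - 21 / 4)‖ ^ 2 ≤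
      2 * (‖N‖ * ‖(w - 9 / 4) * ((conj w - 9 / 4) * (w - conj w)⁻¹
        - (conj w0 - 9 / 4) * (w - conj w0)⁻¹)‖) := by
    apply norm_D (14 / 5) hR
    rw [e]
    simp only [map_mul, map_sub, map_inv₀, map_div₀, conj_conj, cp, cq]
    have c1 : (conj w - w)⁻¹ = -(w - conj w)⁻¹ := by
      rw [← neg_sub, inv_neg]
    have c2 : (conj w - w0)⁻¹ = -(w0 - conj w)⁻¹ := by
      rw [← neg_sub, inv_neg]
    rw [c1, c2]
    push_cast
    simp only [div_eq_mul_inv]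
    ring
  have n1 : ‖(w - 9 / 4) / (w - 21 / 4) - (w0 - 9 / 4) / (w0 - 21 / 4)‖ =
      3 * ‖w - w0‖ / (‖w - 21 / 4‖ * ‖w0 - 21 / 4‖) := by
    have : (w - 9 / 4) / (w - 21 / 4) - (w0 - 9 / 4) / (w0 - 21 / 4) =
        -(3 * (w - w0)) / ((w - 21 / 4) * (w0 - 21 / 4)) := by
      rw [div_sub_div _ _ d1 d3]
      congr 1
      ring
    rw [this, norm_div, norm_neg, norm_mul, norm_mul]
    norm_num
  have n2 : ‖(w - 9 / 4) * ((conj w - 9 / 4) * (w - conj w)⁻¹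
        - (conj w0 - 9 / 4) * (w - conj w0)⁻¹)‖ =
      ‖w - 9 / 4‖ ^ 2 * ‖w - w0‖ / (‖w - conj w‖ * ‖w - conj w0‖) := by
    have : (w - 9 / 4) * ((conj w - 9 / 4) * (w - conj w)⁻¹
        - (conj w0 - 9 / 4) * (w - conj w0)⁻¹) =
        (w - 9 / 4) ^ 2 * conj (w - w0) / ((w - conj w) * (w - conj w0)) := by
      rw [← div_eq_mul_inv, ← div_eq_mul_inv, div_sub_div _ _ b1 b2, ← mul_div_assoc]
      congr 1
      rw [map_sub]
      ring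
    rw [this, norm_div, norm_mul, norm_mul, norm_pow, norm_conj]
  have n3 : ‖G‖ = 5 / 2 * ‖w - 9 / 4‖ * ‖w - 21 / 4‖ * ‖z * sin z‖ * ‖N‖ := by
    have : G = 5 / 2 * (w - 9 / 4) * (w - 21 / 4) * (z * sin z) * N := by
      have hX : 5 / 2 * (w - 9 / 4) * (w - 21 / 4) * (z * sin z) ≠ 0 :=
        mul_ne_zero (mul_ne_zero (mul_ne_zero (by norm_num) a1) d1) hz
      rw [e0, ← mul_div_assoc, mul_div_cancel_left₀ _ hX]
    rw [this, norm_mul, norm_mul, norm_mul, norm_mul]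
    norm_num
  rw [n1, n2] at key1
  rw [n3]
  have p1 : 0 < ‖w - 9 / 4‖ := norm_pos_iff.mpr a1
  have p2 : 0 < ‖w0 - 21 / 4‖ := norm_pos_iff.mpr d3
  have p2' : 0 < ‖w - 21 / 4‖ := norm_pos_iff.mpr d1
  have p3 : 0 < ‖w - conj w‖ := norm_pos_iff.mpr b1
  have p4 : 0 < ‖w - conj w0‖ := norm_pos_iff.mpr b2
  have p5 : 0 < ‖z * sin z‖ := norm_pos_iff.mpr hz
  have p6 : 0 ≤ ‖w - w0‖ := norm_nonneg _
  have p7 : 0 ≤ ‖N‖ := norm_nonneg _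
  generalize ‖w - 9 / 4‖ = a at *
  generalize ‖w - 21 / 4‖ = a' at *
  generalize ‖w0 - 21 / 4‖ = b at *
  generalize ‖w - conj w‖ = f at *
  generalize ‖w - conj w0‖ = g at *
  generalize ‖z * sin z‖ = k at *
  generalize ‖w - w0‖ = d at *
  generalize ‖N‖ = n at *
  rcases p6.eq_or_lt with hd | hd
  · rw [← hd]
    have : 0 ≤ 5 / 2 * a * a' * k * n * (a * a' * b ^ 2) := by positivity
    simpa using this
  · have q1 : 126 / 5 * d * (f * g) ≤ 2 * n * (a ^ 2 * a' ^ 2 * b ^ 2) := by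
      have h5 : 14 / 5 * (3 * d / (a' * b)) ^ 2 * ((a' * b) ^ 2 * (f * g) / d) ≤
          2 * (n * (a ^ 2 * d / (f * g))) * ((a' * b) ^ 2 * (f * g) / d) :=
        mul_le_mul_of_nonneg_right key1 (by positivity)
      have e1 : 14 / 5 * (3 * d / (a' * b)) ^ 2 * ((a' * b) ^ 2 * (f * g) / d) =
          126 / 5 * d * (f * g) := by
        field_simp
        ring
      have e2 : 2 * (n * (a ^ 2 * d / (f * g))) * ((a' * b) ^ 2 * (f * g) / d) =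
          2 * n * (a ^ 2 * a' ^ 2 * b ^ 2) := by
        field_simp
      rw [e1, e2] at h5
      exact h5
    have q2 : 126 / 5 * d * (f * g) * k ≤ (2 * n * (a ^ 2 * a' ^ 2 * b ^ 2)) * k :=
      mul_le_mul_of_nonneg_right q1 p5.le
    linarith

end Pool.Agent.Q174.Bes
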