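import Mathlib

/-!
The power series `sum (-1)^m (ν+2m)(ν+2m-1)...(ν+2m-n+1) / (m! Γ(ν+m+1)) (z/2)^(2m)` for `ν = -1/2`.
-/

set_option autoImplicit false

namespace Pool.Agent.Q174.Bes

open Complex Filter Topology
open scoped ComplexConjugate Nat

theorem hasSum_even (z : ℂ) (j : ℕ) :
    HasSum (fun m : ℕ => (-1) ^ m * ((2 * m).descFactorial (2 * j) : ℂ) * z ^ (2 * m) / (2 * m)!)
      ((-1) ^ j * z ^ (2 * j) * cos z) := by
  have h := (Complex.hasSum_cos z).mul_left ((-1) ^ j * z ^ (2 * j))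
  have h2 : HasSum (fun n : ℕ => (fun m : ℕ => (-1) ^ m * ((2 * m).descFactorial (2 * j) : ℂ) *
      z ^ (2 * m) / (2 * m)!) (n + j)) ((-1) ^ j * z ^ (2 * j) * cos z) := by
    refine h.congr_fun ?_
    intro n
    have e := Nat.factorial_mul_descFactorial (show 2 * j ≤ 2 * (n + j) by omega)
    have e1 : 2 * (n + j) - 2 * j = 2 * n := by omega
    rw [e1] at e
    have e2 : ((2 * (n + j))! : ℂ) = ((2 * n)! : ℂ) * ((2 * (n + j)).descFactorial (2 * j) : ℂ) := by
      rw [← e]; push_cast; ring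
    have p1 : ((2 * n)! : ℂ) ≠ 0 := by exact_mod_cast (2 * n).factorial_ne_zero
    have p2 : ((2 * (n + j)).descFactorial (2 * j) : ℂ) ≠ 0 := by
      intro h0
      have : ((2 * (n + j))! : ℂ) ≠ 0 := by exact_mod_cast (2 * (n + j)).factorial_ne_zero
      rw [e2, h0, mul_zero] at this
      exact this rfl
    simp only
    rw [e2]
    field_simp
    ring
  have h2 := (hasSum_nat_add_iff (f := fun m : ℕ => (-1) ^ m * ((2 * m).descFactorial (2 * j) : ℂ) *
      z ^ (2 * m) / (2 * m)!) j).mp h2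
  have h3 : ∑ i ∈ Finset.range j, (-1) ^ i * ((2 * i).descFactorial (2 * j) : ℂ) * z ^ (2 * i) /
      (2 * i)! = 0 := by
    apply Finset.sum_eq_zero
    intro i hi
    have : (2 * i).descFactorial (2 * j) = 0 :=
      Nat.descFactorial_eq_zero_iff_lt.mpr (by have := Finset.mem_range.mp hi; omega)
    rw [this]
    simp
  rw [h3, add_zero] at h2
  exact h2

theorem hasSum_odd (z : ℂ) (j : ℕ) :
    HasSum (fun m : ℕ => (-1) ^ m * ((2 * m).descFactorial (2 * j + 1) : ℂ) * z ^ (2 * m) / (2 * m)!)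
      ((-1) ^ (j + 1) * z ^ (2 * j + 1) * sin z) := by
  have h := (Complex.hasSum_sin z).mul_left ((-1) ^ (j + 1) * z ^ (2 * j + 1))
  have h2 : HasSum (fun n : ℕ => (fun m : ℕ => (-1) ^ m * ((2 * m).descFactorial (2 * j + 1) : ℂ) *
      z ^ (2 * m) / (2 * m)!) (n + (j + 1))) ((-1) ^ (j + 1) * z ^ (2 * j + 1) * sin z) := by
    refine h.congr_fun ?_
    intro n
    have e := Nat.factorial_mul_descFactorial (show 2 * j + 1 ≤ 2 * (n + (j + 1)) by omega)
    have e1 : 2 * (n + (j + 1)) - (2 * j + 1) = 2 * n + 1 := by omega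
    rw [e1] at e
    have e2 : ((2 * (n + (j + 1)))! : ℂ) =
        ((2 * n + 1)! : ℂ) * ((2 * (n + (j + 1))).descFactorial (2 * j + 1) : ℂ) := by
      rw [← e]; push_cast; ring
    have p1 : ((2 * n + 1)! : ℂ) ≠ 0 := by exact_mod_cast (2 * n + 1).factorial_ne_zero
    have p2 : ((2 * (n + (j + 1))).descFactorial (2 * j + 1) : ℂ) ≠ 0 := by
      intro h0
      have : ((2 * (n + (j + 1)))! : ℂ) ≠ 0 := by
        exact_mod_cast (2 * (n + (j + 1))).factorial_ne_zero
      rw [e2, h0, mul_zero] at this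
      exact this rfl
    simp only
    rw [e2]
    field_simp
    ring
  have h2 := (hasSum_nat_add_iff (f := fun m : ℕ => (-1) ^ m *
      ((2 * m).descFactorial (2 * j + 1) : ℂ) * z ^ (2 * m) / (2 * m)!) (j + 1)).mp h2
  have h3 : ∑ i ∈ Finset.range (j + 1), (-1) ^ i * ((2 * i).descFactorial (2 * j + 1) : ℂ) *
      z ^ (2 * i) / (2 * i)! = 0 := by
    apply Finset.sum_eq_zero
    intro i hi
    have : (2 * i).descFactorial (2 * j + 1) = 0 :=
      Nat.descFactorial_eq_zero_iff_lt.mpr (by have := Finset.mem_range.mp hi; omega)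
    rw [this]
    simp
  rw [h3, add_zero] at h2
  exact h2

theorem desc_eval (m k : ℕ) :
    ((m.descFactorial k : ℕ) : ℂ) = ∏ i ∈ Finset.range k, ((m : ℂ) - i) := by
  rw [← descPochhammer_eval_eq_descFactorial ℂ m k]
  induction k with
  | zero => simp
  | succ k ih => rw [descPochhammer_succ_eval, ih, Finset.prod_range_succ]

theorem gamma_half (m : ℕ) :
    (m ! : ℝ) * Real.Gamma (-1 / 2 + m + 1) * 4 ^ m = (2 * m)! * √Real.pi := by
  induction m with
  | zero =>
    have : (-1 / 2 + ((0 : ℕ) : ℝ) + 1) = 1 / 2 := by norm_num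
    rw [this, Real.Gamma_one_half_eq]
    simp
  | succ m ih =>
    have h1 : (-1 / 2 + ((m + 1 : ℕ) : ℝ) + 1) = (-1 / 2 + (m : ℝ) + 1) + 1 := by push_cast; ring
    have h2 : (-1 / 2 + (m : ℝ) + 1) ≠ 0 := by
      have : (0 : ℝ) ≤ m := Nat.cast_nonneg m
      intro h
      linarith
    rw [h1, Real.Gamma_add_one h2]
    have h3 : (2 * (m + 1))! = (2 * m + 2) * ((2 * m + 1) * (2 * m)!) := by
      rw [show 2 * (m + 1) = (2 * m + 1) + 1 by ring, Nat.factorial_succ, Nat.factorial_succ]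
    rw [h3, Nat.factorial_succ]
    push_cast
    linear_combination (2 * (m : ℝ) + 2) * (2 * m + 1) * ih

end Pool.Agent.Q174.Bes
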